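import Pool.Agent.W352.WA.PxA
import Pool.Agent.W932.WD.Der
import Pool.Agent.W411.WD.Ker
import Pool.Agent.W578.WD.Norm

/-!
# AS-PX: functions with small derivative along `x = 0`
-/

set_option autoImplicit false

universe u

namespace Pool.Agent.W352.WA.Px

theorem main : Pool.Agent.W558.WA_px.{u} :=
  main' Pool.Agent.W932.WD.main Pool.Agent.W411.WD.derp Pool.Agent.W411.WD.ker
    Pool.Agent.W578.WD.Norm.main

end Pool.Agent.W352.WA.Px
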