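import Pool.Agent.W558.WA.Stms
import Pool.Agent.W558.S.Base1

/-!
# AS-PX: functions with small derivative along `x = 0`
-/

set_option autoImplicit false
set_option linter.unusedVariables false
set_option linter.unusedSectionVars false

universe u

open Polynomial

namespace Pool.Agent.W352.WA.Px

open Pool.Agent.W558

section

variable {k E : Type u} [Field k] [Field E] [Algebra k E]

/-- the local ring of a point contains its `p`-th roots -/
lemma pth_root (hnorm : WD_norm.{u}) (p : ℕ) (hp : 0 < p) {O : Subalgebra k E} (hPt : Pt2 O)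
    {b : E} (hb : b ^ p ∈ O) : b ∈ O := by
  obtain ⟨A, hA, hO⟩ := hPt
  have hsm := hA.sm
  have hfr : IsFractionRing A E := hA.isFractionRing
  have hC : IsIntegrallyClosed A := hnorm k A
  obtain ⟨a, ha, s, hs, hs0, hsi, hab⟩ := hO.frac _ hb
  have h1 : (s * b) ^ p = s ^ (p - 1) * a := by
    rw [mul_pow, hab]
    obtain ⟨q, rfl⟩ : ∃ q, p = q + 1 := ⟨p - 1, by omega⟩
    rw [Nat.add_sub_cancel, pow_succ]
    field_simp
  have h2 : s ^ (p - 1) * a ∈ A := A.mul_mem (A.pow_mem hs _) ha
  obtain ⟨w, hw⟩ := IsIntegrallyClosed.exists_algebraMap_eq_of_isIntegral_pow (R := A) (K := E)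
    (x := s * b) (n := p) hp (by
      rw [h1]
      exact (IsIntegrallyClosed.isIntegral_iff (R := A)).2 ⟨⟨_, h2⟩, rfl⟩)
  have h3 : b = w * s⁻¹ := by
    have h4 : (w : E) = s * b := hw
    rw [h4]
    field_simp
  rw [h3]
  exact O.mul_mem (hO.le w.2) hsi

/-- iterates of a multiple of a derivation -/
lemma iter_mem {O : Subalgebra k E} {D : Derivation k E E} (hD : ∀ a ∈ O, D a ∈ O) {a : E}
    (ha : a ∈ O) (m : ℕ) : D^[m] a ∈ O := by
  induction m with
  | zero => exact ha
  | succ m ih => rw [Function.iterate_succ_apply']; exact hD _ ih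

lemma iter_mul {D : Derivation k E E} {x : E} (hx : D x = 0) (a : E) (m : ℕ) :
    D^[m] (x * a) = x * D^[m] a := by
  induction m with
  | zero => rfl
  | succ m ih =>
    rw [Function.iterate_succ_apply', Function.iterate_succ_apply', ih, Derivation.leibniz, hx,
      smul_zero, add_zero, smul_eq_mul]

/-- the case of exponent zero -/
lemma base (hder : WD_der.{u}) (hderp : WD_derp.{u}) (hker : WD_ker.{u}) (hnorm : WD_norm.{u})
    (p : ℕ) [Fact p.Prime] [PerfectField k] [CharP k p] (htr : Algebra.trdeg k E = 2)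
    {O : Subalgebra k E} {x y : E} {D2 : Derivation k E E} (hPt : Pt2 O) (hpar : Par O x y)
    (h2 : ∀ a ∈ O, D2 a ∈ O) (e21 : D2 x = 0) (e22 : D2 y = 1) {h : E} (hh : h ∈ O)
    {d : E} (hd : d ∈ O) (hD : D2 h = x * d) :
    ∃ b ∈ O, ∃ w ∈ O, h - b ^ p = x * w := by
  have hess : Algebra.EssFiniteType k E := by
    obtain ⟨A, hA, hO⟩ := hPt
    have hsm := hA.sm
    have hfr : IsFractionRing A E := hA.isFractionRing
    have : Algebra.EssFiniteType A E :=
      Algebra.EssFiniteType.of_isLocalization E (nonZeroDivisors A)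
    exact Algebra.EssFiniteType.comp k A E
  obtain ⟨D1, D2', h1, h2', e11, e12, e21', e22', hgen⟩ := hder k E htr O x y hPt hpar
  have hDD : D2' = D2 := by
    have := hgen D2
    rw [e21, e22, zero_smul, one_smul, zero_add] at this
    exact this.symm
  rw [hDD] at hgen
  have hxO := hpar.pu.mem
  have hyO := hpar.pv.mem
  set δ1 : Derivation k E E := x • D1 with hδ1
  set δ2 : Derivation k E E := y • D2 with hδ2
  have ap1 : ∀ a, δ1 a = x * D1 a := fun a => rfl
  have ap2 : ∀ a, δ2 a = y * D2 a := fun a => rfl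
  have m1 : ∀ a ∈ O, δ1 a ∈ O := fun a ha => O.mul_mem hxO (h1 a ha)
  have m2 : ∀ a ∈ O, δ2 a ∈ O := fun a ha => O.mul_mem hyO (h2 a ha)
  have hp1 : 1 ≤ p := (Fact.out : p.Prime).one_le
  obtain ⟨q, hq⟩ : ∃ q, p = q + 1 := ⟨p - 1, by omega⟩
  obtain ⟨q', hq'⟩ : ∃ q', q = q' + 1 := ⟨q - 1, by have := (Fact.out : p.Prime).two_le; omega⟩
  have i1 : ∀ a, δ1^[p] a = δ1 a := by
    obtain ⟨D', hD'⟩ := hderp p k E δ1
    have hX : D' x = x := by
      rw [hD', hq]
      have : ∀ m : ℕ, δ1^[m + 1] x = x := by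
        intro m
        induction m with
        | zero =>
          rw [Function.iterate_succ_apply, Function.iterate_zero_apply, ap1, e11, mul_one]
        | succ m ih => rw [Function.iterate_succ_apply', ih, ap1, e11, mul_one]
      exact this q
    have hY : D' y = 0 := by
      rw [hD', hq]
      have : ∀ m : ℕ, δ1^[m + 1] y = 0 := by
        intro m
        induction m with
        | zero =>
          rw [Function.iterate_succ_apply, Function.iterate_zero_apply, ap1, e12, mul_zero]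
        | succ m ih => rw [Function.iterate_succ_apply', ih, map_zero]
      exact this q
    intro a
    rw [← hD']
    have h3 := hgen D'
    rw [hX, hY, zero_smul, add_zero] at h3
    rw [h3]
  have i2 : ∀ a, δ2^[p] a = δ2 a := by
    obtain ⟨D', hD'⟩ := hderp p k E δ2
    have hY : D' y = y := by
      rw [hD', hq]
      have : ∀ m : ℕ, δ2^[m + 1] y = y := by
        intro m
        induction m with
        | zero =>
          rw [Function.iterate_succ_apply, Function.iterate_zero_apply, ap2, e22, mul_one]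
        | succ m ih => rw [Function.iterate_succ_apply', ih, ap2, e22, mul_one]
      exact this q
    have hX : D' x = 0 := by
      rw [hD', hq]
      have : ∀ m : ℕ, δ2^[m + 1] x = 0 := by
        intro m
        induction m with
        | zero =>
          rw [Function.iterate_succ_apply, Function.iterate_zero_apply, ap2, e21, mul_zero]
        | succ m ih => rw [Function.iterate_succ_apply', ih, map_zero]
      exact this q
    intro a
    rw [← hD']
    have h3 := hgen D'
    rw [hX, hY, zero_smul, zero_add] at h3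
    rw [h3]
  have hcomm : Function.Commute δ1 δ2 := by
    intro a
    have h3 : ⁅δ1, δ2⁆ = 0 := by
      rw [hgen ⁅δ1, δ2⁆, Derivation.commutator_apply, Derivation.commutator_apply]
      have c1 : δ1 (δ2 x) - δ2 (δ1 x) = 0 := by
        rw [ap2 x, e21, mul_zero, map_zero, ap1 x, e11, mul_one, ap2, e21, mul_zero, sub_zero]
      have c2 : δ1 (δ2 y) - δ2 (δ1 y) = 0 := by
        rw [ap2 y, e22, mul_one, ap1, e12, mul_zero, map_zero, sub_zero]
      rw [c1, c2, zero_smul, zero_smul, add_zero]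
    have h4 : ⁅δ1, δ2⁆ a = 0 := by rw [h3]; rfl
    rw [Derivation.commutator_apply] at h4
    exact sub_eq_zero.1 h4
  set A : E := h - δ1^[q] h - δ2^[q] h + δ1^[q] (δ2^[q] h) with hA
  have k1 : δ1 A = 0 := by
    rw [hA, map_add, map_sub, map_sub]
    have e1 : δ1 (δ1^[q] h) = δ1 h := by
      rw [← Function.iterate_succ_apply' (f := δ1), ← i1 h, hq]
    have e2 : δ1 (δ1^[q] (δ2^[q] h)) = δ1 (δ2^[q] h) := by
      rw [← Function.iterate_succ_apply' (f := δ1), ← i1 (δ2^[q] h), hq]
    rw [e1, e2]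
    ring
  have k2 : δ2 A = 0 := by
    rw [hA, map_add, map_sub, map_sub]
    have e1 : δ2 (δ2^[q] h) = δ2 h := by
      rw [← Function.iterate_succ_apply' (f := δ2), ← i2 h, hq]
    have hc : ∀ a, δ2 (δ1^[q] a) = δ1^[q] (δ2 a) := fun a => ((hcomm.iterate_left q) a).symm
    rw [e1, hc, hc, e1]
    ring
  obtain ⟨b, hb⟩ := hker p k E A (by
    intro D
    rw [hgen D]
    have d1 : D1 A = 0 := by
      rw [ap1] at k1
      exact (mul_eq_zero.1 k1).resolve_left hpar.u0
    have d2 : D2 A = 0 := by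
      rw [ap2] at k2
      exact (mul_eq_zero.1 k2).resolve_left hpar.v0
    change D x • D1 A + D y • D2 A = 0
    rw [d1, d2, smul_zero, smul_zero, add_zero])
  -- the differences are divisible by `x`
  have t1 : ∀ a ∈ O, ∃ w ∈ O, δ1^[q] a = x * w := by
    intro a ha
    rw [hq', Function.iterate_succ_apply']
    exact ⟨_, h1 _ (iter_mem m1 ha q'), rfl⟩
  have t2 : ∃ w ∈ O, δ2^[q] h = x * w := by
    rw [hq', Function.iterate_succ_apply]
    have e1 : δ2 h = x * (y * d) := by rw [ap2, hD]; ring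
    have e2 : δ2 x = 0 := by rw [ap2, e21, mul_zero]
    rw [e1, iter_mul e2]
    exact ⟨_, iter_mem m2 (O.mul_mem hyO hd) q', rfl⟩
  obtain ⟨w1, hw1, hw1'⟩ := t1 h hh
  obtain ⟨w2, hw2, hw2'⟩ := t2
  obtain ⟨w3, hw3, hw3'⟩ := t1 (δ2^[q] h) (iter_mem m2 hh q)
  have hAO : A ∈ O := by
    rw [hA, hw1', hw2']
    rw [← hw2', hw3']
    refine O.add_mem (O.sub_mem (O.sub_mem hh (O.mul_mem hxO hw1)) ?_) (O.mul_mem hxO hw3)
    rw [hw2']
    exact O.mul_mem hxO hw2
  refine ⟨b, pth_root hnorm p (by omega) hPt (by rw [hb]; exact hAO), w1 + w2 - w3,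
    O.sub_mem (O.add_mem hw1 hw2) hw3, ?_⟩
  rw [hb, hA, hw3', hw1', hw2']
  ring

/-- the induction -/
lemma step (hder : WD_der.{u}) (hderp : WD_derp.{u}) (hker : WD_ker.{u}) (hnorm : WD_norm.{u})
    (p : ℕ) [Fact p.Prime] [PerfectField k] [CharP k p] (htr : Algebra.trdeg k E = 2)
    {O : Subalgebra k E} {x y : E} {D2 : Derivation k E E} (hPt : Pt2 O) (hpar : Par O x y)
    (h2 : ∀ a ∈ O, D2 a ∈ O) (e21 : D2 x = 0) (e22 : D2 y = 1) (r : ℕ) (hr : r < p) :
    ∀ h ∈ O, (∃ w ∈ O, y * D2 h - (r : E) * h = x * w) →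
      ∃ b ∈ O, ∃ w ∈ O, h - y ^ r * b ^ p = x * w := by
  have hxO := hpar.pu.mem
  have hyO := hpar.pv.mem
  induction r with
  | zero =>
    rintro h hh ⟨w, hw, hD⟩
    rw [Nat.cast_zero, zero_mul, sub_zero] at hD
    obtain ⟨d, hd, hd'⟩ := hpar.reg w hw _ (h2 h hh) hD.symm
    obtain ⟨b, hb, w', hw', h3⟩ := base hder hderp hker hnorm p htr hPt hpar h2 e21 e22 hh hd hd'
    exact ⟨b, hb, w', hw', by rw [pow_zero, one_mul]; exact h3⟩
  | succ r ih =>
    rintro h hh ⟨w, hw, hD⟩
    have hcharE : CharP E p := charP_of_injective_algebraMap (algebraMap k E).injective p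
    have hr0 : ((r + 1 : ℕ) : E) ≠ 0 := by
      intro h0
      rw [CharP.cast_eq_zero_iff E p] at h0
      have := Nat.le_of_dvd (by omega) h0
      omega
    have hri : (((r + 1 : ℕ) : E))⁻¹ ∈ O := by
      have h4 : (((r + 1 : ℕ) : E))⁻¹ = algebraMap k E (((r + 1 : ℕ) : k))⁻¹ := by
        rw [map_inv₀, map_natCast]
      rw [h4]
      exact O.algebraMap_mem _
    obtain ⟨c, hc⟩ : ∃ c : E, c = ((r + 1 : ℕ) : E) := ⟨_, rfl⟩
    rw [← hc] at hD hr0 hri
    obtain ⟨g, hg⟩ : ∃ g : E, g = c⁻¹ * D2 h := ⟨_, rfl⟩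
    obtain ⟨w1, hw1⟩ : ∃ w1 : E, w1 = c⁻¹ * w := ⟨_, rfl⟩
    have hgO : g ∈ O := by rw [hg]; exact O.mul_mem hri (h2 h hh)
    have hw1O : w1 ∈ O := by rw [hw1]; exact O.mul_mem hri hw
    have hh' : h = y * g - x * w1 := by
      apply mul_left_cancel₀ hr0
      rw [hg, hw1]
      have e1 : c * (y * (c⁻¹ * D2 h) - x * (c⁻¹ * w)) = (c * c⁻¹) * (y * D2 h - x * w) := by ring
      rw [e1, mul_inv_cancel₀ hr0]
      linear_combination -hD
    have hcr : c = (r : E) + 1 := by rw [hc]; push_cast; ring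
    have key : y * (y * D2 g - (r : E) * g) = x * (w + y * D2 w1 - c * w1) := by
      have e1 := congrArg D2 hh'
      rw [map_sub, Derivation.leibniz, Derivation.leibniz, e21, e22] at e1
      simp only [smul_eq_mul] at e1
      rw [e1] at hD
      rw [hh', hcr] at hD
      rw [hcr]
      linear_combination hD
    obtain ⟨d, hd, hd'⟩ := hpar.reg (w + y * D2 w1 - c * w1)
      (O.sub_mem (O.add_mem hw (O.mul_mem hyO (h2 _ hw1O)))
        (O.mul_mem (by rw [hc]; exact natCast_mem O _) hw1O))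
      (y * D2 g - (r : E) * g)
      (O.sub_mem (O.mul_mem hyO (h2 _ hgO)) (O.mul_mem (natCast_mem O _) hgO)) key.symm
    obtain ⟨b, hb, w', hw', h3⟩ := ih (by omega) g hgO ⟨d, hd, hd'⟩
    refine ⟨b, hb, y * w' - w1, O.sub_mem (O.mul_mem hyO hw') hw1O, ?_⟩
    rw [pow_succ]
    linear_combination hh' + y * h3

theorem main' (hder : WD_der.{u}) (hderp : WD_derp.{u}) (hker : WD_ker.{u})
    (hnorm : WD_norm.{u}) : WA_px.{u} := by
  intro p _ k E _ _ _ _ _ htr O x y D2 hPt hpar h2 e21 e22 h hh M hM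
  have hcharE : CharP E p := charP_of_injective_algebraMap (algebraMap k E).injective p
  refine step hder hderp hker hnorm p htr hPt hpar h2 e21 e22 (M % p)
    (Nat.mod_lt _ (Fact.out : p.Prime).pos) h hh ?_
  have e1 : ((M % p : ℕ) : E) = (M : E) := by
    rw [CharP.natCast_eq_natCast E p]
    exact Nat.mod_modEq M p
  rw [e1]
  exact hM

end

end Pool.Agent.W352.WA.Px
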